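import Pool.Agent.Helper61.QE.St4

/-! # Project QD, part E: module ATZ -/

set_option autoImplicit false

open MeasureTheory Set Filter Topology Complex
open scoped ContDiff ComplexConjugate ENNReal

namespace Pool.Agent.Helper22.QE

open Pool.Agent.Helper61.QE Pool.Agent.Helper80.Bieb

/-- the ring -/
private def RR (ρ : ℝ) : Set ℂ := {z : ℂ | ρ < ‖z‖ ∧ ‖z‖ < 1}

private theorem RR_meas (ρ : ℝ) : MeasurableSet (RR ρ) :=
  (measurableSet_lt measurable_const measurable_norm).inter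
    (measurableSet_lt measurable_norm measurable_const)

private theorem RR_sub {ρ : ℝ} (h : 0 < ρ) : RR ρ ⊆ D \ {0} := by
  rintro z ⟨h1, h2⟩
  refine ⟨?_, ?_⟩
  · rw [mem_ball_zero_iff]
    exact h2
  · intro h3
    rw [mem_singleton_iff] at h3
    rw [h3, norm_zero] at h1
    linarith

/-- the polynomials of the limit -/
private noncomputable def pol (B M ρ : ℝ) : ℝ :=
  Real.pi * (1 - 4 * ρ * M + 4 * ρ ^ 4 * M ^ 2 - B ^ 2 * ρ ^ 2 + 4 * B ^ 2 * ρ ^ 5 * M -
    4 * B ^ 2 * ρ ^ 8 * M ^ 2)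

private theorem pol_eq (B M ρ : ℝ) (hρ : ρ ≠ 0) :
    (1 - (B * ρ ^ 2) ^ 2) * Real.pi * (ρ⁻¹ - 2 * ρ ^ 2 * M) ^ 2 - Real.pi * (1 / ρ ^ 2 - 1) =
      pol B M ρ := by
  unfold pol
  field_simp
  ring

private theorem pol_lim (B M : ℝ) (r : ℕ → ℝ) (hr : Tendsto r atTop (𝓝 0)) :
    Tendsto (fun n => ENNReal.ofReal (pol B M (r n))) atTop (𝓝 (ENNReal.ofReal Real.pi)) := by
  apply ENNReal.tendsto_ofReal
  have h1 : Continuous (pol B M) := by
    unfold pol
    fun_prop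
  have h2 := (h1.tendsto 0).comp hr
  have h3 : pol B M 0 = Real.pi := by
    unfold pol
    ring
  rw [h3] at h2
  exact h2

private theorem sandwich (hCVH : StCVH) (hATR : StATR) (hATC : StATC) (k : ℂ → ℂ) (b : ℂ)
    (T : ℂ → ℂ) (M : ℝ) (hk : DifferentiableOn ℂ k D) (hT : DifferentiableOn ℂ T D)
    (hfun : ∀ z, FF b T z = z⁻¹ + (k z - k 0)) (hinj : InjOn (FF b T) (D \ {0}))
    (hM : ∀ z : ℂ, ‖z‖ ≤ 1 / 2 → ‖T z‖ ≤ M) (ρ : ℝ) (hρ : 0 < ρ) (hρ2 : ρ ≤ 1 / 2)
    (hb : ‖b‖ * ρ ^ 2 ≤ 1 / 2) (hMρ : 2 * ρ ^ 2 * M ≤ ρ⁻¹) :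
    ENNReal.ofReal (pol ‖b‖ M ρ) ≤ volume (FF b T '' (D \ {0}))ᶜ +
      ∫⁻ z in RR ρ, ENNReal.ofReal (‖deriv k z‖ ^ 2) ∧
    volume (FF b T '' (D \ {0}))ᶜ + ∫⁻ z in RR ρ, ENNReal.ofReal (‖deriv k z‖ ^ 2) ≤
      ENNReal.ofReal (pol ‖b‖ (-M) ρ) := by
  obtain ⟨h1, h2⟩ := hATC b T M ρ hT hinj hM hρ hρ2 hb hMρ
  have h3 := hATR k hk ρ hρ (by linarith)
  have hopen : IsOpen (D \ {0} : Set ℂ) := Metric.isOpen_ball.sdiff isClosed_singleton
  have hd : DifferentiableOn ℂ (FF b T) (D \ {0}) := differentiableOn_FF b hT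
  have hRinj : InjOn (FF b T) (RR ρ) := hinj.mono (RR_sub hρ)
  -- the derivative
  have h4 : ∀ z ∈ RR ρ, deriv (FF b T) z = -(z ^ 2)⁻¹ + deriv k z := by
    intro z hz
    have hz0 : z ≠ 0 := fun h => (RR_sub hρ hz).2 h
    have hfun' : FF b T = fun z => z⁻¹ + (k z - k 0) := funext hfun
    have h5 : HasDerivAt k (deriv k z) z :=
      ((hk z (RR_sub hρ hz).1).differentiableAt
        (Metric.isOpen_ball.mem_nhds (RR_sub hρ hz).1)).hasDerivAt
    rw [hfun']
    exact ((hasDerivAt_inv hz0).add (h5.sub_const (k 0))).deriv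
  -- the image of the ring
  have h5 : volume (FF b T '' RR ρ) = ENNReal.ofReal (Real.pi * (1 / ρ ^ 2 - 1)) +
      ∫⁻ z in RR ρ, ENNReal.ofReal (‖deriv k z‖ ^ 2) := by
    have h6 := hCVH (D \ {0}) (RR ρ) (FF b T) hopen hd (RR_sub hρ) (RR_meas ρ) hRinj
      (fun _ => 1)
    rw [setLIntegral_one] at h6
    rw [h6]
    refine Eq.trans ?_ h3
    apply setLIntegral_congr_fun (RR_meas ρ)
    intro z hz
    show 1 * ENNReal.ofReal (‖deriv (FF b T) z‖ ^ 2) =
      ENNReal.ofReal (‖-(z ^ 2)⁻¹ + deriv k z‖ ^ 2)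
    rw [one_mul, h4 z hz]
  -- decomposition
  have hsplit : (D \ {0} : Set ℂ) = (Metric.closedBall 0 ρ \ {0}) ∪ RR ρ := by
    apply Set.Subset.antisymm
    · rintro z ⟨a1, a2⟩
      by_cases a3 : ‖z‖ ≤ ρ
      · exact Or.inl ⟨mem_closedBall_zero_iff.2 a3, a2⟩
      · exact Or.inr ⟨not_le.1 a3, mem_ball_zero_iff.1 a1⟩
    · rintro z (⟨a1, a2⟩ | hz)
      · have a3 := mem_closedBall_zero_iff.1 a1
        exact ⟨mem_ball_zero_iff.2 (by linarith), a2⟩
      · exact RR_sub hρ hz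
  have hcb : (Metric.closedBall 0 ρ \ {0} : Set ℂ) ⊆ D \ {0} := by
    rw [hsplit]
    exact subset_union_left
  have hC : (FF b T '' (Metric.closedBall 0 ρ \ {0}))ᶜ =
      (FF b T '' (D \ {0}))ᶜ ∪ FF b T '' RR ρ := by
    ext w
    constructor
    · intro hw
      by_cases h7 : w ∈ FF b T '' (D \ {0})
      · right
        rw [hsplit, image_union] at h7
        rcases h7 with h7 | h7
        · exact absurd h7 hw
        · exact h7
      · exact Or.inl h7
    · rintro (h7 | h7) h8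
      · exact h7 (image_mono hcb h8)
      · obtain ⟨z, hz, hzw⟩ := h7
        obtain ⟨z', hz', hzw'⟩ := h8
        have h9 : z = z' := hinj (RR_sub hρ hz) (hcb hz') (hzw.trans hzw'.symm)
        rw [h9] at hz
        have h10 := hz'.1
        rw [mem_closedBall_zero_iff] at h10
        have h11 := hz.1
        linarith
  have hmeas : MeasurableSet (FF b T '' RR ρ) :=
    (RR_meas ρ).image_of_continuousOn_injOn (hd.continuousOn.mono (RR_sub hρ)) hRinj
  have hdisj : Disjoint (FF b T '' (D \ {0}))ᶜ (FF b T '' RR ρ) := by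
    rw [Set.disjoint_left]
    intro w hw h7
    exact hw (image_mono (RR_sub hρ) h7)
  have hvol : volume (FF b T '' (Metric.closedBall 0 ρ \ {0}))ᶜ =
      (volume (FF b T '' (D \ {0}))ᶜ + ∫⁻ z in RR ρ, ENNReal.ofReal (‖deriv k z‖ ^ 2)) +
        ENNReal.ofReal (Real.pi * (1 / ρ ^ 2 - 1)) := by
    rw [hC, measure_union hdisj hmeas, h5]
    ring
  have hx : 0 ≤ Real.pi * (1 / ρ ^ 2 - 1) := by
    apply mul_nonneg Real.pi_pos.le
    have h7 : ρ ^ 2 ≤ 1 := by nlinarith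
    have h8 : 1 ≤ 1 / ρ ^ 2 := by
      rw [le_div_iff₀ (by positivity)]
      linarith
    linarith
  constructor
  · rw [← pol_eq _ _ _ hρ.ne', ENNReal.ofReal_sub _ hx, tsub_le_iff_right, ← hvol]
    exact h1
  · have h7 := pol_eq ‖b‖ (-M) ρ hρ.ne'
    have h8 : ρ⁻¹ - 2 * ρ ^ 2 * -M = ρ⁻¹ + 2 * ρ ^ 2 * M := by ring
    rw [h8] at h7
    rw [← h7, ENNReal.ofReal_sub _ hx]
    apply ENNReal.le_sub_of_add_le_right ENNReal.ofReal_ne_top
    rw [← hvol]
    exact h2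

theorem pATZ (hCVH : Pool.Agent.Helper61.QE.StCVH) (hATR : Pool.Agent.Helper61.QE.StATR)
    (hATC : Pool.Agent.Helper61.QE.StATC) : Pool.Agent.Helper61.QE.StATZ := by
  intro k hk hinj
  have hD0 : (D : Set ℂ) ∈ 𝓝 (0 : ℂ) := Metric.ball_mem_nhds _ one_pos
  set T0 := dslope k 0 with hT0
  have hT0d : DifferentiableOn ℂ T0 D := (Complex.differentiableOn_dslope hD0).2 hk
  set T := dslope T0 0 with hT
  have hTd : DifferentiableOn ℂ T D := (Complex.differentiableOn_dslope hD0).2 hT0d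
  set b := T0 0 with hb
  have hkz : ∀ z, k z = k 0 + b * z + z ^ 2 * T z := by
    intro z
    have h1 : (z - 0) • T0 z = k z - k 0 := sub_smul_dslope k 0 z
    have h2 : (z - 0) • T z = T0 z - T0 0 := sub_smul_dslope T0 0 z
    rw [sub_zero, smul_eq_mul] at h1 h2
    rw [← hb] at h2
    linear_combination (-1 : ℂ) * h1 - z * h2
  have hfun : ∀ z, FF b T z = z⁻¹ + (k z - k 0) := by
    intro z
    unfold FF
    rw [hkz z]
    ring
  have hinj' : InjOn (FF b T) (D \ {0}) := by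
    intro x hx y hy hxy
    apply hinj hx hy
    rw [hfun, hfun] at hxy
    show x⁻¹ + k x = y⁻¹ + k y
    linear_combination hxy
  -- translation
  have htr : volume ((fun u => u⁻¹ + k u) '' (D \ {0}))ᶜ = volume (FF b T '' (D \ {0}))ᶜ := by
    have h1 : ((fun u => u⁻¹ + k u) '' (D \ {0}))ᶜ =
        (fun w => w + (-k 0)) ⁻¹' (FF b T '' (D \ {0}))ᶜ := by
      ext w
      rw [mem_preimage, mem_compl_iff, mem_compl_iff, not_iff_not]
      constructor
      · rintro ⟨z, hz, rfl⟩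
        refine ⟨z, hz, ?_⟩
        rw [hfun]
        ring
      · rintro ⟨z, hz, hzw⟩
        refine ⟨z, hz, ?_⟩
        rw [hfun] at hzw
        show z⁻¹ + k z = w
        linear_combination hzw
    rw [h1, measure_preimage_add_right]
  rw [htr]
  -- bound
  obtain ⟨M0, hM0⟩ : ∃ M0 : ℝ, ∀ z ∈ Metric.closedBall (0 : ℂ) (1 / 2), ‖T z‖ ≤ M0 := by
    apply (isCompact_closedBall (0 : ℂ) (1 / 2)).exists_bound_of_continuousOn
    apply hTd.continuousOn.mono
    intro z hz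
    rw [mem_closedBall_zero_iff] at hz
    rw [mem_ball_zero_iff]
    linarith
  set M := |M0| with hM
  have hM' : ∀ z : ℂ, ‖z‖ ≤ 1 / 2 → ‖T z‖ ≤ M := fun z hz =>
    (hM0 z (mem_closedBall_zero_iff.2 hz)).trans (le_abs_self _)
  have hMnn : 0 ≤ M := abs_nonneg _
  -- the radii
  set r0 : ℝ := 1 / (2 * (1 + ‖b‖ + M)) with hr0
  have hbn := norm_nonneg b
  have hr00 : 0 < r0 := by rw [hr0]; positivity
  have hr0e : (1 + ‖b‖ + M) * r0 = 1 / 2 := by
    rw [hr0]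
    have : (1 + ‖b‖ + M) ≠ 0 := by positivity
    field_simp
  set r : ℕ → ℝ := fun n => r0 / ((n : ℝ) + 1) with hr
  have hrpos : ∀ n, 0 < r n := fun n => by rw [hr]; positivity
  have hrle : ∀ n, r n ≤ r0 := by
    intro n
    rw [hr]
    apply div_le_self hr00.le
    have : (0 : ℝ) ≤ n := Nat.cast_nonneg n
    linarith
  have hrlim : Tendsto r atTop (𝓝 0) := by
    have h1 := tendsto_one_div_add_atTop_nhds_zero_nat (𝕜 := ℝ)
    have h2 := h1.const_mul r0
    rw [mul_zero] at h2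
    refine h2.congr fun n => ?_
    rw [hr]
    ring
  have hsand : ∀ n, ENNReal.ofReal (pol ‖b‖ M (r n)) ≤ volume (FF b T '' (D \ {0}))ᶜ +
      ∫⁻ z in RR (r n), ENNReal.ofReal (‖deriv k z‖ ^ 2) ∧
      volume (FF b T '' (D \ {0}))ᶜ + ∫⁻ z in RR (r n), ENNReal.ofReal (‖deriv k z‖ ^ 2) ≤
        ENNReal.ofReal (pol ‖b‖ (-M) (r n)) := by
    intro n
    have h1 := hrpos n
    have h2 := hrle n
    have h3 : r n ≤ 1 / 2 := by nlinarith
    have h4 : ‖b‖ * r n ≤ 1 / 2 := by nlinarith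
    have h5 : M * r n ≤ 1 / 2 := by nlinarith
    have h6 : (r n) ^ 2 ≤ 1 / 4 := by nlinarith
    apply sandwich hCVH hATR hATC k b T M hk hTd hfun hinj' hM' (r n) h1 h3
    · nlinarith
    · rw [← one_div, le_div_iff₀ h1]
      have h7 : 2 * r n ^ 2 * M * r n = 2 * (r n ^ 2 * (M * r n)) := by ring
      rw [h7]
      have h8 : r n ^ 2 * (M * r n) ≤ 1 / 4 * (1 / 2) :=
        mul_le_mul h6 h5 (mul_nonneg hMnn h1.le) (by norm_num)
      linarith
  -- the limit
  set f : ℂ → ℝ≥0∞ := fun z => ENNReal.ofReal (‖deriv k z‖ ^ 2) with hf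
  have hmono : Monotone (fun n => RR (r n)) := by
    intro m n hmn z hz
    refine ⟨lt_of_le_of_lt ?_ hz.1, hz.2⟩
    show r0 / ((n : ℝ) + 1) ≤ r0 / ((m : ℝ) + 1)
    apply div_le_div_of_nonneg_left hr00.le (by positivity)
    have : (m : ℝ) ≤ n := by exact_mod_cast hmn
    linarith
  have hunion : ⋃ n, RR (r n) = D \ {0} := by
    apply Set.Subset.antisymm
    · intro z hz
      obtain ⟨n, hn⟩ := mem_iUnion.1 hz
      exact RR_sub (hrpos n) hn
    · rintro z ⟨hz1, hz2⟩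
      have h1 : 0 < ‖z‖ := norm_pos_iff.2 hz2
      obtain ⟨n, hn⟩ := (hrlim.eventually (gt_mem_nhds h1)).exists
      exact mem_iUnion.2 ⟨n, hn, mem_ball_zero_iff.1 hz1⟩
  have hI : Tendsto (fun n => ∫⁻ z in RR (r n), f z) atTop (𝓝 (∫⁻ z in D, f z)) := by
    have h1 := tendsto_measure_iUnion_atTop (μ := volume.withDensity f) hmono
    rw [hunion, withDensity_apply f (measurableSet_ball.diff (measurableSet_singleton 0))] at h1
    have h2 : ∫⁻ z in (D \ {0} : Set ℂ), f z = ∫⁻ z in D, f z := by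
      apply setLIntegral_congr
      exact diff_null_ae_eq_self (measure_singleton 0)
    rw [h2] at h1
    refine h1.congr fun n => ?_
    exact withDensity_apply f (RR_meas (r n))
  have hadd : Tendsto (fun n => volume (FF b T '' (D \ {0}))ᶜ + ∫⁻ z in RR (r n), f z) atTop
      (𝓝 (volume (FF b T '' (D \ {0}))ᶜ + ∫⁻ z in D, f z)) := tendsto_const_nhds.add hI
  exact le_antisymm
    (le_of_tendsto_of_tendsto' hadd (pol_lim ‖b‖ (-M) r hrlim) (fun n => (hsand n).2))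
    (le_of_tendsto_of_tendsto' (pol_lim ‖b‖ M r hrlim) hadd (fun n => (hsand n).1))

end Pool.Agent.Helper22.QE
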